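import Mathlib
import Pool.Agent.Lib.MP_4777ae_an.Final

/-!
# Bourin's inequality for all unitarily invariant norms
-/

set_option autoImplicit false

open Matrix
open scoped ComplexOrder

namespace Pool.Agent.Results.MP_4777ae_an.BourinInequality

/-- `N` is a unitarily invariant seminorm on the complex `n × n` matrices. -/
structure IsUnitarilyInvariant {n : ℕ} (N : Matrix (Fin n) (Fin n) ℂ → ℝ) : Prop where
  /-- `N (c X) = |c| N X` -/
  smul : ∀ (c : ℂ) (X : Matrix (Fin n) (Fin n) ℂ), N (c • X) = ‖c‖ * N X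
  /-- the triangle inequality -/
  add : ∀ X Y : Matrix (Fin n) (Fin n) ℂ, N (X + Y) ≤ N X + N Y
  /-- `N (U X V) = N X` for unitary `U`, `V` -/
  unitary : ∀ U V X : Matrix (Fin n) (Fin n) ℂ, Uᴴ * U = 1 → Vᴴ * V = 1 → N (U * X * V) = N X

/-- The power `A ^ r` of a positive semidefinite matrix `A`: the function `x ↦ x ^ r` applied
to `A` by the (continuous) functional calculus for Hermitian matrices. -/
noncomputable def power {n : ℕ} (A : Matrix (Fin n) (Fin n) ℂ) (r : ℝ) :
    Matrix (Fin n) (Fin n) ℂ :=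
  cfc (fun x : ℝ => x ^ r) A

lemma power_eq {n : ℕ} {A : Matrix (Fin n) (Fin n) ℂ} (hA : A.PosSemidef) (r : ℝ) :
    power A r = BourinQ.fc (hA.isHermitian.eigenvectorUnitary : Matrix (Fin n) (Fin n) ℂ)
      (fun i => hA.isHermitian.eigenvalues i ^ r) := by
  unfold power
  rw [hA.isHermitian.cfc_eq, IsHermitian.cfc, Unitary.conjStarAlgAut_apply]
  rfl

/-- **Bourin's question.** For positive semidefinite `A`, `B`, all `p, q ≥ 0` and every unitarily
invariant (semi)norm, `|||A^p B^q + B^p A^q||| ≤ |||A^(p+q) + B^(p+q)|||`. -/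
theorem result (n : ℕ) (A B : Matrix (Fin n) (Fin n) ℂ) (hA : A.PosSemidef) (hB : B.PosSemidef)
    (p q : ℝ) (hp : 0 ≤ p) (hq : 0 ≤ q) (N : Matrix (Fin n) (Fin n) ℂ → ℝ)
    (hN : IsUnitarilyInvariant N) :
    N (power A p * power B q + power B p * power A q) ≤ N (power A (p + q) + power B (p + q)) := by
  have hN' : BourinQ.UINorm N := ⟨hN.smul, hN.add, fun U hU V hV X =>
    hN.unitary U V X (mem_unitaryGroup_iff'.mp hU) (mem_unitaryGroup_iff'.mp hV)⟩
  have h0 : ∀ {C : Matrix (Fin n) (Fin n) ℂ}, C.PosSemidef → power C 0 = 1 := by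
    intro C hC
    unfold power
    simp only [Real.rpow_zero]
    exact cfc_const_one ℝ C (ha := hC.isHermitian)
  rcases hp.eq_or_lt with rfl | hp
  · rw [h0 hA, h0 hB, Matrix.one_mul, Matrix.one_mul, zero_add, add_comm]
  rcases hq.eq_or_lt with rfl | hq
  · rw [h0 hA, h0 hB, Matrix.mul_one, Matrix.mul_one, add_zero]
  have hpq : 0 < p + q := by linarith
  have hx : ∀ i, 0 ≤ hA.isHermitian.eigenvalues i ^ (p + q) := fun i =>
    Real.rpow_nonneg (hA.eigenvalues_nonneg i) _
  have hz : ∀ i, 0 ≤ hB.isHermitian.eigenvalues i ^ (p + q) := fun i =>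
    Real.rpow_nonneg (hB.eigenvalues_nonneg i) _
  have ht1 : p / (p + q) < 1 := by rw [div_lt_one hpq]; linarith
  have key := BourinQ.bourin hN' (hA.isHermitian.eigenvectorUnitary).2
    (hB.isHermitian.eigenvectorUnitary).2 hx hz (div_pos hp hpq) ht1
  have e1 : ∀ l : ℝ, 0 ≤ l → (l ^ (p + q)) ^ (p / (p + q)) = l ^ p := by
    intro l hl
    rw [← Real.rpow_mul hl]
    congr 1
    field_simp
  have e2 : ∀ l : ℝ, 0 ≤ l → (l ^ (p + q)) ^ (1 - p / (p + q)) = l ^ q := by
    intro l hl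
    rw [← Real.rpow_mul hl]
    congr 1
    field_simp
    ring
  simp only [e1 _ (hA.eigenvalues_nonneg _), e1 _ (hB.eigenvalues_nonneg _),
    e2 _ (hA.eigenvalues_nonneg _), e2 _ (hB.eigenvalues_nonneg _)] at key
  rw [power_eq hA, power_eq hA, power_eq hA, power_eq hB, power_eq hB, power_eq hB]
  exact key

end Pool.Agent.Results.MP_4777ae_an.BourinInequality
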